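import Pool.Agent.H773R2.UG.Defs6
import Pool.Agent.H773R2.UR.SFC

/-! SFK: common sunflower in `k` hypergraphs -/

namespace H773Y

open Finset Pool.Agent.Results.MP_9dddc4_co.UkExponent H773X H773W

theorem SFK : S_SFK := by
  classical
  intro n r i c k H hk0 hH hS
  have hor : 0 < r - i ∨ c ≤ 1 := by
    by_contra hcon
    push Not at hcon
    obtain ⟨h1, h2⟩ := hcon
    obtain ⟨X, M, hX, hM, hMc, hk, hp⟩ := hS ⟨0, hk0⟩
    rw [← hMc] at h2
    obtain ⟨f, hf, g, hg, hfg⟩ := Finset.one_lt_card.1 h2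
    have h3 : ∀ f ∈ M, f = X := by
      intro f hf
      symm
      apply Finset.eq_of_subset_of_card_le (hk f hf)
      rw [hH ⟨0, hk0⟩ f (hM hf), hX]
      omega
    exact hfg ((h3 f hf).trans (h3 g hg).symm)
  have hcard : ((univ : Finset (Fin c)).image (SFC_edge i c (r - i))).card = c := by
    rw [Finset.card_image_of_injective _ (SFC_edge_inj hor)]
    simp
  have h := common_of_emb (k := k) (by omega)
    ((univ : Finset (Fin c)).image (SFC_edge i c (r - i))) H (by
      intro k
      obtain ⟨φ, hφ, hφH⟩ := SFC_phi (hH k) (hS k)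
      refine ⟨φ, hφ, ?_⟩
      intro e he
      unfold img at he
      obtain ⟨e', he', rfl⟩ := mem_image.1 he
      obtain ⟨j, -, rfl⟩ := mem_image.1 he'
      exact hφH j)
  rwa [hcard] at h

end H773Y
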