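import Pool.Agent.H773R2.UG.Defs6

set_option autoImplicit false

namespace H773Y

open Finset Pool.Agent.Results.MP_9dddc4_co.UkExponent H773X

theorem UBK_A (n r k s e : ℕ) (d b : ℝ) (hn : 1 ≤ n) (hk : 1 ≤ k)
    (he : (n : ℝ) ^ ((r : ℝ) - d) ≤ e) (hs : e ^ k ≤ s * (n.choose r) ^ (k - 1))
    (hb : b = ((k : ℝ) - 1) * d) : (e : ℝ) ≤ s * (n : ℝ) ^ b := by
  obtain ⟨k, rfl⟩ : ∃ k', k = k' + 1 := ⟨k - 1, by omega⟩
  rw [Nat.add_sub_cancel] at hs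
  have hn0 : (0 : ℝ) < n := by exact_mod_cast hn
  have hx : 0 < (n : ℝ) ^ ((r : ℝ) - d) := Real.rpow_pos_of_pos hn0 _
  have h1 : ((n : ℝ) ^ ((r : ℝ) - d)) ^ k * e ≤ (e : ℝ) ^ (k + 1) := by
    rw [pow_succ]
    exact mul_le_mul_of_nonneg_right (pow_le_pow_left₀ hx.le he k) (Nat.cast_nonneg e)
  have h2 : (e : ℝ) ^ (k + 1) ≤ s * ((n.choose r : ℕ) : ℝ) ^ k := by exact_mod_cast hs
  have h3 : ((n.choose r : ℕ) : ℝ) ≤ (n : ℝ) ^ (r : ℝ) := by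
    rw [Real.rpow_natCast]
    exact_mod_cast Nat.choose_le_pow n r
  have h4 : (s : ℝ) * ((n.choose r : ℕ) : ℝ) ^ k ≤ s * ((n : ℝ) ^ (r : ℝ)) ^ k :=
    mul_le_mul_of_nonneg_left (pow_le_pow_left₀ (Nat.cast_nonneg _) h3 k) (Nat.cast_nonneg _)
  have h5 : ((n : ℝ) ^ (r : ℝ)) ^ k = ((n : ℝ) ^ ((r : ℝ) - d)) ^ k * (n : ℝ) ^ b := by
    rw [← Real.rpow_natCast, ← Real.rpow_natCast, ← Real.rpow_mul hn0.le, ← Real.rpow_mul hn0.le,
      ← Real.rpow_add hn0, hb]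
    congr 1
    push_cast
    ring
  rw [h5] at h4
  have h6 : ((n : ℝ) ^ ((r : ℝ) - d)) ^ k * e ≤
      ((n : ℝ) ^ ((r : ℝ) - d)) ^ k * (s * (n : ℝ) ^ b) := by
    refine (h1.trans (h2.trans h4)).trans (le_of_eq ?_)
    ring
  exact le_of_mul_le_mul_left h6 (pow_pos hx k)

theorem UBK_B (n r a s e F : ℕ) (d b : ℝ) (hn : 1 ≤ n) (hF : 1 ≤ F) (har : a + 1 ≤ r)
    (he : (e : ℝ) ≤ (n : ℝ) ^ ((r : ℝ) - d)) (hs : e ≤ F * s ^ (a + 1) * n ^ (r - a - 1))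
    (hb : b * ((a : ℝ) + 1) = ((r : ℝ) - a - 1) + ((r : ℝ) - d) * a) :
    (e : ℝ) ≤ F * s * (n : ℝ) ^ b := by
  have hn0 : (0 : ℝ) < n := by exact_mod_cast hn
  have hF1 : (1 : ℝ) ≤ F := by exact_mod_cast hF
  have hnb : 0 < (n : ℝ) ^ b := Real.rpow_pos_of_pos hn0 _
  refine le_of_pow_le_pow_left₀ (n := a + 1) (by omega) (by positivity) ?_
  have h1 : (e : ℝ) ≤ F * (s : ℝ) ^ (a + 1) * (n : ℝ) ^ ((r : ℝ) - a - 1) := by
    have h2 : (n : ℝ) ^ ((r : ℝ) - a - 1) = ((n ^ (r - a - 1) : ℕ) : ℝ) := by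
      have h3 : (r : ℝ) - a - 1 = ((r - a - 1 : ℕ) : ℝ) := by
        rw [Nat.cast_sub (by omega), Nat.cast_sub (by omega)]
        simp
      rw [h3, Real.rpow_natCast]
      push_cast
      rfl
    rw [h2]
    exact_mod_cast hs
  have h4 : (e : ℝ) ^ a ≤ ((n : ℝ) ^ ((r : ℝ) - d)) ^ a :=
    pow_le_pow_left₀ (Nat.cast_nonneg e) he a
  calc (e : ℝ) ^ (a + 1) = (e : ℝ) ^ a * e := pow_succ _ _
    _ ≤ ((n : ℝ) ^ ((r : ℝ) - d)) ^ a * (F * (s : ℝ) ^ (a + 1) * (n : ℝ) ^ ((r : ℝ) - a - 1)) :=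
        mul_le_mul h4 h1 (Nat.cast_nonneg e) (by positivity)
    _ = F * (s : ℝ) ^ (a + 1) * ((n : ℝ) ^ b) ^ (a + 1) := by
        have h5 : ((n : ℝ) ^ b) ^ (a + 1) =
            ((n : ℝ) ^ ((r : ℝ) - d)) ^ a * (n : ℝ) ^ ((r : ℝ) - a - 1) := by
          rw [← Real.rpow_natCast, ← Real.rpow_natCast, ← Real.rpow_mul hn0.le,
            ← Real.rpow_mul hn0.le, ← Real.rpow_add hn0]
          congr 1
          push_cast
          linarith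
        rw [h5]
        ring
    _ ≤ (F : ℝ) ^ (a + 1) * (s : ℝ) ^ (a + 1) * ((n : ℝ) ^ b) ^ (a + 1) := by
        have h6 : (F : ℝ) ≤ (F : ℝ) ^ (a + 1) := le_self_pow₀ hF1 (by omega)
        gcongr
    _ = (F * s * (n : ℝ) ^ b) ^ (a + 1) := by
        rw [mul_pow, mul_pow]

theorem UBK_log (r n : ℕ) (hn : 2 ≤ n) : 1 + r * Real.log n ≤ ((r : ℝ) + 2) * Real.log n := by
  have h1 : Real.log 2 ≤ Real.log n := Real.log_le_log (by norm_num) (by exact_mod_cast hn)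
  have h2 := Real.log_two_gt_d9
  nlinarith

theorem UBK_hb (r k a : ℕ) (hk : 2 ≤ k) :
    ∃ d : ℝ, ub r k a = ((k : ℝ) - 1) * d ∧
      ub r k a * ((a : ℝ) + 1) = ((r : ℝ) - a - 1) + ((r : ℝ) - d) * a := by
  have hk' : (2 : ℝ) ≤ k := by exact_mod_cast hk
  have ha : (0 : ℝ) ≤ a := Nat.cast_nonneg a
  have hden : ((a : ℝ) + 1) * k - 1 ≠ 0 := by nlinarith
  have hX : ((r : ℝ) - 1) * ((a : ℝ) + 1) / (((a : ℝ) + 1) * k - 1) *
      (((a : ℝ) + 1) * k - 1) = ((r : ℝ) - 1) * ((a : ℝ) + 1) := div_mul_cancel₀ _ hden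
  have hub : ub r k a = ((k : ℝ) - 1) *
      (((r : ℝ) - 1) * ((a : ℝ) + 1) / (((a : ℝ) + 1) * k - 1)) := by
    unfold ub
    rw [← mul_div_assoc]
    congr 1
    ring
  refine ⟨((r : ℝ) - 1) * ((a : ℝ) + 1) / (((a : ℝ) + 1) * k - 1), hub, ?_⟩
  rw [hub]
  linear_combination hX

theorem UBK_nonneg (r k a : ℕ) (hr : 1 ≤ r) (hk : 2 ≤ k) : 0 ≤ ub r k a := by
  have hk' : (2 : ℝ) ≤ k := by exact_mod_cast hk
  have hr' : (1 : ℝ) ≤ r := by exact_mod_cast hr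
  have ha : (0 : ℝ) ≤ a := Nat.cast_nonneg a
  unfold ub
  apply div_nonneg
  · exact mul_nonneg (mul_nonneg (by linarith) (by linarith)) (by linarith)
  · nlinarith

theorem UBK (h1 : S_COSK) (h2 : H773X.S_GRR) : S_UBK := by
  intro r k a hk hr
  refine ⟨(r.factorial : ℝ) * ((r : ℝ) + 2), by positivity, ?_⟩
  intro n hn
  have har : a + 1 ≤ r := by
    have : a * 1 ≤ a * k := Nat.mul_le_mul_left a (by omega)
    omega
  obtain ⟨d, hd1, hd2⟩ := UBK_hb r k a hk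
  have hb0 := UBK_nonneg r k a (by omega) hk
  generalize ub r k a = b at hd1 hd2 hb0 ⊢
  have hn1 : (1 : ℝ) ≤ n := by exact_mod_cast (by omega : 1 ≤ n)
  have hF : 1 ≤ r.factorial := Nat.succ_le_of_lt (Nat.factorial_pos r)
  have hF1 : (1 : ℝ) ≤ (r.factorial : ℝ) := by exact_mod_cast hF
  have hnb : (1 : ℝ) ≤ (n : ℝ) ^ b := Real.one_le_rpow hn1 hb0
  have hM1 : (1 : ℝ) ≤ (r.factorial : ℝ) * (n : ℝ) ^ b :=
    one_le_mul_of_one_le_of_one_le hF1 hnb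
  have key := h2 r n k ((r.factorial : ℝ) * (n : ℝ) ^ b) (by omega) (by omega) hM1 (by
    intro H e he hH hcard
    by_cases hcase : (e : ℝ) ≤ (n : ℝ) ^ ((r : ℝ) - d)
    · obtain ⟨s, hs1, hs2, hs3⟩ := h1 n r k a e H (by omega) he hr hH hcard
      refine ⟨s, hs1, hs2, ?_⟩
      have h5 := UBK_B n r a s e r.factorial d b (by omega) hF har hcase hs3 hd2
      calc (e : ℝ) ≤ (r.factorial : ℝ) * s * (n : ℝ) ^ b := h5
        _ = _ := by ring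
    · push Not at hcase
      obtain ⟨s, hs, hs2⟩ := common_overlap (by omega : 0 < k) H hH hcard
      refine ⟨s, ?_, hs, ?_⟩
      · by_contra hcon
        have h0 : s = 0 := by omega
        rw [h0, zero_mul] at hs2
        have : 0 < e ^ k := pow_pos he k
        omega
      · have h8 := UBK_A n r k s e d b (by omega) (by omega) hcase.le hs2 hd1
        have h9 : (s : ℝ) * (n : ℝ) ^ b ≤ (r.factorial : ℝ) * ((s : ℝ) * (n : ℝ) ^ b) :=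
          le_mul_of_one_le_left (by positivity) hF1
        calc (e : ℝ) ≤ s * (n : ℝ) ^ b := h8
          _ ≤ (r.factorial : ℝ) * ((s : ℝ) * (n : ℝ) ^ b) := h9
          _ = _ := by ring)
  have hlog := UBK_log r n hn
  calc (U k n r : ℝ) ≤ (r.factorial : ℝ) * (n : ℝ) ^ b * (1 + r * Real.log n) := key
    _ ≤ (r.factorial : ℝ) * (n : ℝ) ^ b * (((r : ℝ) + 2) * Real.log n) :=
        mul_le_mul_of_nonneg_left hlog (by positivity)
    _ = _ := by ring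

end H773Y
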