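import Pool.Agent.H773R2.UG.Defs6

/-! Comparison of the exponents. -/

set_option autoImplicit false

namespace H773Y

open Finset Pool.Agent.Results.MP_9dddc4_co.UkExponent H773X

theorem UBM : S_UBM := by
  intro r k a hk hr h
  have hK : (2 : ℝ) ≤ (k : ℝ) := by exact_mod_cast hk
  have hR : (2 : ℝ) ≤ (r : ℝ) := by exact_mod_cast hr
  have hA : (0 : ℝ) ≤ (a : ℝ) := Nat.cast_nonneg a
  have hh : (a : ℝ) * k + 1 ≤ r := by exact_mod_cast h
  unfold ea ub
  have e2 : r ≤ (a + 1) * k → (r : ℝ) ≤ ((a : ℝ) + 1) * k := fun h => by exact_mod_cast h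
  generalize (k : ℝ) = K at hK hh e2 ⊢
  have e3 : r = 2 * a + 1 → (r : ℝ) = 2 * a + 1 := fun h => by rw [h]; push_cast; ring
  have hu : (a : ℝ) + 1 ≤ (r : ℝ) - a := by nlinarith
  have hv1 : 0 < ((a : ℝ) + 1) * K - 1 := by nlinarith
  have hu1 : 0 < ((r : ℝ) - a) * K - 1 := by nlinarith
  have hc : 0 ≤ ((r : ℝ) - 1) * (K - 1) := mul_nonneg (by linarith) (by linarith)
  refine ⟨?_, ?_, ?_⟩
  · rw [div_le_div_iff₀ hu1 hv1]
    generalize ((r : ℝ) - 1) * (K - 1) = c at hc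
    nlinarith [mul_le_mul_of_nonneg_left hu hc]
  · intro h2
    have h4 := e2 h2
    have hK0 : 0 < K := by linarith
    rw [div_le_div_iff₀ hv1 hK0]
    have h5 : (K - 1) * ((r : ℝ) - ((a : ℝ) + 1) * K) ≤ 0 :=
      mul_nonpos_of_nonneg_of_nonpos (by linarith) (by linarith)
    nlinarith [h5]
  · intro h3
    have h4 := e3 h3
    rw [h4]
    have h5 : 2 * (a : ℝ) + 1 - a = a + 1 := by ring
    rw [h5]

end H773Y
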